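import Pool.Agent.H75.L.W662.CB.Stmts

set_option autoImplicit false

open MeasureTheory Filter Topology Complex
open scoped InnerProductSpace ENNReal

namespace Pool.Agent.W227.CB
open Pool.Agent.W662.CB

/-- **multiplication operators** -/
theorem e2 : S_E2 := by
  intro H _ _ _ g C hg hC
  have hC0 : 0 ≤ C := (norm_nonneg _).trans (hC 0)
  have hm : ∀ f : LR H, MemLp (fun s => g s • f s) 2 (volume : Measure ℝ) := by
    intro f
    refine (Lp.memLp f).of_le_mul (c := C)
      (hg.aestronglyMeasurable.smul (Lp.aestronglyMeasurable f)) (Eventually.of_forall fun s => ?_)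
    rw [norm_smul]
    exact mul_le_mul_of_nonneg_right (hC s) (norm_nonneg _)
  let L : LR H →ₗ[ℂ] LR H :=
    { toFun := fun f => (hm f).toLp _
      map_add' := by
        intro f f'
        apply Lp.ext
        filter_upwards [(hm (f + f')).coeFn_toLp, (hm f).coeFn_toLp, (hm f').coeFn_toLp,
          Lp.coeFn_add f f', Lp.coeFn_add ((hm f).toLp _) ((hm f').toLp _)] with s h1 h2 h3 h4 h5
        rw [h1, h5, h4, Pi.add_apply, Pi.add_apply, h2, h3, smul_add]
      map_smul' := by
        intro c f
        apply Lp.ext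
        filter_upwards [(hm (c • f)).coeFn_toLp, (hm f).coeFn_toLp,
          Lp.coeFn_smul c f, Lp.coeFn_smul c ((hm f).toLp _)] with s h1 h2 h3 h4
        rw [h1, RingHom.id_apply, h4, h3, Pi.smul_apply, Pi.smul_apply, h2, smul_comm] }
  have hL : ∀ f : LR H, ‖L f‖ ≤ C * ‖f‖ := by
    intro f
    refine Lp.norm_le_mul_norm_of_ae_le_mul ?_
    filter_upwards [(hm f).coeFn_toLp] with s h1
    show ‖((hm f).toLp _ : ℝ → H) s‖ ≤ _
    rw [h1, norm_smul]
    exact mul_le_mul_of_nonneg_right (hC s) (norm_nonneg _)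
  refine ⟨L.mkContinuous C hL, fun f => ?_, L.mkContinuous_norm_le hC0 hL⟩
  exact (hm f).coeFn_toLp

/-- **their algebra** -/
theorem e2b : S_E2b := by
  intro H _ _ _
  refine ⟨?_, ?_, ?_, ?_⟩
  · intro g S S' h h'
    exact ContinuousLinearMap.ext fun f => Lp.ext ((h f).trans (h' f).symm)
  · intro g S S' h h'
    rw [ContinuousLinearMap.star_eq_adjoint]
    refine Eq.symm ?_
    rw [ContinuousLinearMap.eq_adjoint_iff]
    intro x y
    rw [L2.inner_def, L2.inner_def]
    refine integral_congr_ae ?_
    filter_upwards [h' x, h y] with s h1 h2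
    rw [h1, h2, inner_smul_left, inner_smul_right, Complex.conj_conj]
  · intro g g' S S' h h' f
    have h1 := h (S' f)
    have h2 := h' f
    filter_upwards [h1, h2] with s h1 h2
    rw [ContinuousLinearMap.mul_apply, h1, h2, smul_smul]
  · intro g y S S' h h'
    refine ContinuousLinearMap.ext fun f => Lp.ext ?_
    filter_upwards [h (S' f), h' f, h' (S f), h f] with s h1 h2 h3 h4
    rw [ContinuousLinearMap.mul_apply, ContinuousLinearMap.mul_apply, h1, h2, h3, h4, map_smul]

end Pool.Agent.W227.CB
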